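import Pool.Agent.R851.SK.MainF

set_option autoImplicit false

/-!
# The Skolem Problem for almost all coefficients and all small initial values

An instance of the Skolem Problem consists of the coefficients `c` and the initial values `a` of a
linear recurrence sequence `u`. Here only the coefficients are random: they run through a cube of
side `2 H + 1` with any centre. For all but a proportion `H ^ (-δ)` of the coefficient vectors, the
Skolem Problem is solved for ALL initial values with `|a_i| ≤ H ^ δ` simultaneously: `u` has a zero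
term if and only if one of the `d` initial values is zero, and one errorless algorithm halts on
every input which codes `u`. If the initial values are nonzero, there is a prime
`p ≤ (log H) ^ B` which divides no term of `u`, and modulo which `u` has period `p - 1`, and the
total function `f`, which looks only at the primes up to `(log H) ^ B`, recognises `u`.

The starting result `SmoothedAnalysis` has random coefficients and random initial values, and
`AlmostAllInitialValues` random initial values for fixed coefficients. For fixed initial values the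
`n`-th term is a polynomial of degree about `n` in the coefficients, and a counting argument for
each `n` separately gives nothing.

Proof idea. Let `k = 2 d`, let `p ≡ 1` modulo `k` be a prime which divides no initial value, and let
`Q` be the group of `k`-th powers modulo `p`, of order `T = (p - 1) / k`. Let `S` be a set of `d`
elements of `Q` which contains `1`, let `t` be any nonzero residue, and let `c` be the coefficients
of the recurrence with the roots `t S`. Then `u_n = t^n ∑ a_j U_j(n) t^(-j)`, where `U_j(n)` depends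
only on `S` and on `n` modulo `T`, and not all `U_j(n)` are zero. For fixed `S` and `n` this is a
nonzero polynomial of degree at most `d - 1` in `t^(-1)`, since all `a_j ≠ 0`; so only `(d - 1) T`
of the `p - 1 = 2 d T` values of `t` give a sequence with a zero. Each `c` arises at most `d` times,
and the pairs `(S, t)` are a positive proportion of `p^d`. The sieve, without the at most
`C log H` primes dividing an initial value, and a union bound over `a` give the result.
-/

namespace Pool.Agent.Results.MP_8d13b5_lc.AlmostAllCoefficients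

open Pool.Agent.H684R3.Smo Pool.Agent.H884R2.Sko Pool.Agent.H692R2.USS

/-- For all initial values `a` of absolute value at most `X`, and the sequence `u` with
`u_(n+d) = ∑ c_i u_(n+d-i)` and the initial values `a`: `u` has a zero term if and only if one of
the `a_i` is zero, and the algorithm `A` halts on every input which codes `u` as a linear
recurrence sequence; and if no `a_i` is zero, some prime `p ≤ Y` divides no term of `u`, and `u` has
period `p - 1` modulo `p`, and the function `f` returns `true` on every input which codes `u`. -/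
def Easy (A : List (ℕ × ℕ) × List (ℕ × ℕ) →. Bool)
    (f : ℕ × (List (ℕ × ℕ) × List (ℕ × ℕ)) → Bool) (d : ℕ) (X Y : ℝ) (c : Fin d → ℤ) : Prop :=
  ∀ (a : Fin d → ℤ) (u : ℕ → ℤ), (∀ i, |(a i : ℝ)| ≤ X) → IsSeq c a u →
    ((∃ n, u n = 0) ↔ ∃ i, a i = 0) ∧ (∀ z, IsLRS z u → (A z).Dom) ∧
    ((∀ i, a i ≠ 0) →
      (∃ p : ℕ, p.Prime ∧ (p : ℝ) ≤ Y ∧ ∀ n, ¬ (p : ℤ) ∣ u n ∧ (p : ℤ) ∣ u (n + (p - 1)) - u n) ∧
      ∀ z, IsLRS z u → f (⌊Y⌋₊, z) = true)

theorem result :
    -- one algorithm for all integer linear recurrence sequences, which never errs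
    ∃ A : List (ℕ × ℕ) × List (ℕ × ℕ) →. Bool, Partrec A ∧
      (∀ z v, IsLRS z v → ∀ b ∈ A z, (b = true ↔ ∃ n, v n = 0)) ∧
      -- one total computable function, which reads all linear recurrence sequences and never errs
      ∃ f : ℕ × (List (ℕ × ℕ) × List (ℕ × ℕ)) → Bool, Computable f ∧
        (∀ (y : ℕ) (z : List (ℕ × ℕ) × List (ℕ × ℕ)) (v : ℕ → ℤ), IsLRS z v → f (y, z) = true →
          ∀ n, v n ≠ 0) ∧
        -- all orders
        ∀ d : ℕ, 1 ≤ d → ∃ B δ : ℝ, 0 < B ∧ 0 < δ ∧ ∃ H₀ : ℕ, ∀ H : ℕ, H₀ ≤ H →
          ∀ b : Fin d → ℤ,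
            (Nat.card {c : Fin d → ℤ // (∀ i, |c i - b i| ≤ (H : ℤ)) ∧
              ¬ Easy A f d ((H : ℝ) ^ δ) (Real.log H ^ B) c} : ℝ) ≤
              (H : ℝ) ^ (-δ) * (2 * H + 1 : ℝ) ^ d := by
  obtain ⟨𝒜, h𝒜, h𝒜e⟩ := algo
  obtain ⟨f, hf, hfe⟩ := t10
  refine ⟨𝒜, h𝒜, fun z v hv => (h𝒜e z v hv).1, f, hf, fun y z v hv ht n hn => ?_,
    fun d hd => ?_⟩
  · obtain ⟨q, _, _, hq⟩ := (hfe y z v hv).1 ht
    apply hq n
    rw [hn]
    exact dvd_zero _
  · obtain ⟨A, δ, hA, hδ, H₀, h⟩ := Pool.Agent.R851.SK.mainF d hd
    refine ⟨A, δ, hA, hδ, H₀, fun H hH b => ?_⟩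
    have h1 := h H hH b
    have hcard : Fintype.card (Fin d) = d := by simp
    rw [hcard] at h1
    rw [mul_comm]
    refine le_trans ?_ h1
    have hmem : ∀ x : Fin d → ℤ, (∀ i, |x i - b i| ≤ (H : ℤ)) → x ∈ bx b H := by
      intro x hx
      unfold bx
      rw [Fintype.mem_piFinset]
      intro i
      rw [Finset.mem_Icc]
      have := abs_le.1 (hx i)
      constructor <;> linarith [this.1, this.2]
    have heasy : ∀ c : Fin d → ℤ,
        Pool.Agent.R851.SK.EasyF d ((H : ℝ) ^ δ) (Real.log H ^ A) c →
        Easy 𝒜 f d ((H : ℝ) ^ δ) (Real.log H ^ A) c := by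
      intro c hc a u haX hu
      refine ⟨⟨?_, ?_⟩, fun z hz => ?_, fun ha => ?_⟩
      · rintro ⟨n, hn⟩
        by_contra hcon
        push Not at hcon
        obtain ⟨p, hp, hpY, hpv⟩ := hc a u hcon haX hu
        apply (hpv n).1
        rw [hn]
        exact dvd_zero _
      · rintro ⟨i, hi⟩
        exact ⟨i, by rw [hu.1 i, hi]⟩
      · rw [(h𝒜e z u hz).2]
        by_cases ha : ∃ i, a i = 0
        · obtain ⟨i, hi⟩ := ha
          exact Or.inl ⟨i, by rw [hu.1 i, hi]⟩
        · push Not at ha
          obtain ⟨p, hp, -, hpv⟩ := hc a u ha haX hu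
          exact Or.inr ⟨p, hp, fun n => (hpv n).1⟩
      · obtain ⟨p, hp, hpY, hpv⟩ := hc a u ha haX hu
        refine ⟨⟨p, hp, hpY, hpv⟩, fun z hz => ?_⟩
        rw [hfe _ _ _ hz]
        exact ⟨p, Nat.le_floor hpY, hp, fun n => (hpv n).1⟩
    have hfin := finite_sub b H
      (fun c => ¬ Pool.Agent.R851.SK.EasyF d ((H : ℝ) ^ δ) (Real.log H ^ A) c)
    have hle := Nat.card_le_card_of_injective
      (fun x : {c : Fin d → ℤ // (∀ i, |c i - b i| ≤ (H : ℤ)) ∧
          ¬ Easy 𝒜 f d ((H : ℝ) ^ δ) (Real.log H ^ A) c} =>
        (⟨x.1, hmem x.1 x.2.1, fun h => x.2.2 (heasy x.1 h)⟩ :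
          {c : Fin d → ℤ // c ∈ bx b H ∧
            ¬ Pool.Agent.R851.SK.EasyF d ((H : ℝ) ^ δ) (Real.log H ^ A) c}))
      (fun x y hxy => Subtype.ext (congrArg (fun z => z.1) hxy))
    exact_mod_cast hle

end Pool.Agent.Results.MP_8d13b5_lc.AlmostAllCoefficients
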