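import Pool.Agent.R77.Orb.Main2

set_option autoImplicit false

/-!
# Orbits of most integer matrices avoid hyperplanes, with certificates of polylogarithmic size

The Skolem Problem in its matrix form asks whether `w ⬝ᵥ (M ^ n *ᵥ x) = 0` for some `n`.  The inputs
are drawn here as they occur in this form: the entries of the matrix `M` are random, and the vectors
`x, w` are random or prescribed.

1. Random triples `(M, x, w)`: in every box of side `2 H + 1`, with arbitrary centre, all but a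
   proportion `H ^ (-δ)` of the triples have a certificate: a prime `p ≤ (log H) ^ A` modulo which
   the sequence has period `(p - 1) / 2` and no zero term.
2. Random matrices, prescribed vectors, uniformly: the same for all but a proportion `H ^ (-δ)` of
   the matrices in every box, for all vectors `x, w` of size at most `H ^ c` (`c` arbitrary, `δ`
   independent of `c`) with `w ⬝ᵥ x ≠ 0`; the last condition only says that `n = 0` is not a zero.
3. All small vectors at once: all but a proportion `H ^ (-δ)` of the matrices `M` in every box have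
   such certificates for ALL pairs `x, w` of vectors with entries at most `H ^ δ` and
   `w ⬝ᵥ x ≠ 0`.  In particular no power of `M` has a zero on its diagonal.

The starting result `SmoothedAnalysis` has the coefficients and the initial values of the recurrence
random and independent; here the coefficients (of the characteristic polynomial) and the initial
values `w ⬝ᵥ x, w ⬝ᵥ (M *ᵥ x), ...` are polynomials in the entries of `M`, for prescribed `x, w`.

Proof idea.  Modulo a large prime `p` a positive proportion of all matrices is diagonalizable over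
`ZMod p` with distinct nonzero squares as eigenvalues.  The conjugates of such a matrix are
equidistributed, and `GL_d` acts transitively on the pairs `(x, w)` with a given nonzero value of
`w ⬝ᵥ x`; so it is enough to count triples `(N, x, w)` for a fixed companion matrix `N`, where each
of the `(p - 1) / 2` equations `w ⬝ᵥ (N ^ n *ᵥ x) = 0` holds for a proportion about `1 / p`.  The
power saving comes from the second moment sieve of the starting result, here in a form in which the
set of primes may depend on `H` (primes dividing `w ⬝ᵥ x` have to be avoided).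
-/

namespace Pool.Agent.Results.MP_8d13b5_lc.MatrixOrbits

open Matrix

/-- A certificate, of size at most `Y`, that the integer sequence `u` has no zero term: a prime
`p ≤ Y` modulo which `u` has period `(p - 1) / 2` and no term of `u` vanishes.  It is verified by
computing `(p - 1) / 2` terms modulo `p`. -/
def Certified (Y : ℝ) (u : ℕ → ℤ) : Prop :=
  ∃ p : ℕ, p.Prime ∧ (p : ℝ) ≤ Y ∧
    (∀ n, (p : ℤ) ∣ u (n + (p - 1) / 2) - u n) ∧ ∀ n, ¬ (p : ℤ) ∣ u n

theorem result :
    -- a certified sequence has no zero term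
    (∀ (Y : ℝ) (u : ℕ → ℤ), Certified Y u → ∀ n, u n ≠ 0) ∧
    -- every dimension and every exponent `A > 1`
    ∀ (d : ℕ), 1 ≤ d → ∀ A : ℝ, 1 < A →
      -- 1. random triples in any box
      (∃ δ : ℝ, 0 < δ ∧ ∃ H₀ : ℕ, ∀ H : ℕ, H₀ ≤ H →
        ∀ (B : Matrix (Fin d) (Fin d) ℤ) (b b' : Fin d → ℤ),
        ∃ E : Finset (Matrix (Fin d) (Fin d) ℤ × (Fin d → ℤ) × (Fin d → ℤ)),
          (E.card : ℝ) ≤ (2 * (H : ℝ) + 1) ^ (d * d + 2 * d) * (H : ℝ) ^ (-δ) ∧
          ∀ M x w, (∀ i j, |M i j - B i j| ≤ H) → (∀ i, |x i - b i| ≤ H) →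
            (∀ i, |w i - b' i| ≤ H) → (M, x, w) ∉ E →
            Certified (Real.log H ^ A) (fun n => w ⬝ᵥ (M ^ n *ᵥ x))) ∧
      -- 2. random matrices in any box, prescribed vectors of polynomial size
      (∃ δ : ℝ, 0 < δ ∧ ∀ c : ℝ, ∃ H₀ : ℕ, ∀ H : ℕ, H₀ ≤ H → ∀ x w : Fin d → ℤ,
        (∀ i, |((x i : ℤ) : ℝ)| ≤ (H : ℝ) ^ c) → (∀ i, |((w i : ℤ) : ℝ)| ≤ (H : ℝ) ^ c) →
        w ⬝ᵥ x ≠ 0 → ∀ B : Matrix (Fin d) (Fin d) ℤ,
        ∃ E : Finset (Matrix (Fin d) (Fin d) ℤ),
          (E.card : ℝ) ≤ (2 * (H : ℝ) + 1) ^ (d * d) * (H : ℝ) ^ (-δ) ∧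
          ∀ M, (∀ i j, |M i j - B i j| ≤ H) → M ∉ E →
            Certified (Real.log H ^ A) (fun n => w ⬝ᵥ (M ^ n *ᵥ x))) ∧
      -- 3. random matrices in any box, all small vectors at once
      (∃ δ : ℝ, 0 < δ ∧ ∃ H₀ : ℕ, ∀ H : ℕ, H₀ ≤ H → ∀ B : Matrix (Fin d) (Fin d) ℤ,
        ∃ E : Finset (Matrix (Fin d) (Fin d) ℤ),
          (E.card : ℝ) ≤ (2 * (H : ℝ) + 1) ^ (d * d) * (H : ℝ) ^ (-δ) ∧
          ∀ M, (∀ i j, |M i j - B i j| ≤ H) → M ∉ E →
            (∀ x w : Fin d → ℤ, (∀ i, |((x i : ℤ) : ℝ)| ≤ (H : ℝ) ^ δ) →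
              (∀ i, |((w i : ℤ) : ℝ)| ≤ (H : ℝ) ^ δ) → w ⬝ᵥ x ≠ 0 →
              Certified (Real.log H ^ A) (fun n => w ⬝ᵥ (M ^ n *ᵥ x))) ∧
            ∀ (n : ℕ) (i : Fin d), (M ^ n) i i ≠ 0) := by
  have hno : ∀ (Y : ℝ) (u : ℕ → ℤ), Certified Y u → ∀ n, u n ≠ 0 := by
    rintro Y u ⟨p, _, _, _, h⟩ n hn
    exact h n (by rw [hn]; exact dvd_zero _)
  refine ⟨hno, fun d hd A hA => ⟨Pool.Agent.R77.Orb.part_one d hd A hA,
    Pool.Agent.R77.Orb.part_two_uniform d hd A hA, ?_⟩⟩
  obtain ⟨δ, hδ, H₀, h⟩ := Pool.Agent.R77.Orb.part_three_uniform d hd A hA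
  refine ⟨δ, hδ, max 1 H₀, fun H hH B => ?_⟩
  obtain ⟨E, hE1, hE2⟩ := h H ((le_max_right _ _).trans hH) B
  refine ⟨E, hE1, fun M hM hME => ⟨hE2 M hM hME, fun n i => ?_⟩⟩
  have hH1 : (1 : ℝ) ≤ H := by exact_mod_cast (le_max_left _ _).trans hH
  have hpow : (1 : ℝ) ≤ (H : ℝ) ^ δ := Real.one_le_rpow hH1 hδ.le
  have hs : ∀ j, |(((Pi.single i (1 : ℤ) : Fin d → ℤ) j : ℤ) : ℝ)| ≤ (H : ℝ) ^ δ := by
    intro j
    by_cases hj : j = i
    · subst hj; simpa using hpow
    · rw [Pi.single_eq_of_ne hj]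
      simp only [Int.cast_zero, abs_zero]
      linarith
  have hone : (Pi.single i (1 : ℤ) : Fin d → ℤ) ⬝ᵥ Pi.single i 1 ≠ 0 := by
    rw [single_dotProduct]; simp
  have hc := hE2 M hM hME _ _ hs hs hone
  have e : Pool.Agent.R77.Orb.orb M (Pi.single i 1) (Pi.single i 1) = fun n => (M ^ n) i i := by
    funext n; exact Pool.Agent.R77.Orb.orb_single M i n
  rw [e] at hc
  exact hno (Real.log H ^ A) (fun n => (M ^ n) i i) hc n

end Pool.Agent.Results.MP_8d13b5_lc.MatrixOrbits
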