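import Pool.Agent.R544.OM.Lim

/-!
# One modulus decides almost all instances: the exact exponent of the exceptional set

Let `L` be a number field. For all large `H` there is a number `m ≤ H ^ ε` such that for every
recurrence of order `d` whose characteristic polynomial is squarefree and splits over `L`, with
coefficients bounded by `H ^ C`, there is ONE squarefree modulus `M ≤ H` modulo which all solutions
have period `m`, and, in every cube of initial values of side `2 H + 1`, for all but
`T * H ^ (d - 1 + ε)` initial values no term is congruent modulo `M` to an integer in `[-T, T]`.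
So all but `H ^ (d - 1 + ε)` of the about `H ^ d` instances are settled by a congruence which is
checked with the first `H ^ ε` terms, and one errorless algorithm for all recurrences halts on them.
This is best possible up to `ε`: `H ^ (d - 1)` of the instances have a zero with index `0`. In
particular the number of initial values in `[-H, H] ^ d` whose sequence has a zero is
`H ^ (d - 1 + o(1))`, for every recurrence with squarefree characteristic polynomial.

The starting results `PolylogCertificates`, `SmoothedAnalysis` and `AllSmallPolynomials` have an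
exceptional proportion `H ^ (-δ)`, with a small `δ > 0` and prime moduli.

Proof idea (as for Prachar's theorem on numbers `m` with many divisors `p - 1`): by the prime ideal
theorem for the fields `L (ζ_(2 ^ j))`, `j ≤ J`, the primes `p ≤ N` of degree one in `L`, weighted
by `log p / p` and the power of `2` dividing `p - 1`, have sum at least `c J log N`, with `c` not
depending on `J`. So some `m = 2 ^ J k` with `k ≤ N` has `∏ p ≥ N ^ K` over these `p` with
`p - 1 ∣ m`, for any given `K`. Take a partial product `M ≤ H` without the bad primes of the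
recurrence, whose product is polynomial in `H`. Modulo `M` the sequences have period `m`, each of
the `m` terms is equidistributed over the initial values, and the union bound is `m / M`.
-/

set_option autoImplicit false

namespace Pool.Agent.Results.MP_8d13b5_lc.OneModulus

open Polynomial NumberField Pool.Agent.H884R2.Sko Pool.Agent.H692R2.USS
open scoped Classical

/-- The initial values in the cube `[-H, H] ^ d` for which the sequence with the coefficients `c`
has a zero term. -/
noncomputable def zeros {d : ℕ} (c : Fin d → ℤ) (H : ℕ) : Finset (Fin d → ℤ) :=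
  (box 0 H).filter (fun a => ∃ u, IsSeq c a u ∧ ∃ n, u n = 0)

theorem result :
    -- one algorithm for all integer linear recurrence sequences
    ∃ A : List (ℕ × ℕ) × List (ℕ × ℕ) →. Bool, Partrec A ∧
      -- it never errs
      (∀ p u, IsLRS p u → ∀ b ∈ A p, (b = true ↔ ∃ n, u n = 0)) ∧
      -- for every number field, order, bound for the size of the coefficients, and `ε`
      (∀ (L : Type) [Field L] [NumberField L] (d : ℕ) (hd : 1 ≤ d) (C : ℕ) (ε : ℝ), 0 < ε →
        ∃ H₀ : ℕ, ∀ H : ℕ, H₀ ≤ H → ∃ m : ℕ, 1 ≤ m ∧ (m : ℝ) ≤ (H : ℝ) ^ ε ∧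
          ∀ c : Fin d → ℤ, (∀ i, |c i| ≤ (H : ℤ) ^ C) → c ⟨d - 1, by omega⟩ ≠ 0 →
            Squarefree ((charPoly c).map (Int.castRingHom ℚ)) →
            ((charPoly c).map (algebraMap ℤ L)).Splits →
            -- there is one modulus
            ∃ M : ℕ, Squarefree M ∧ (H : ℝ) ^ (1 - ε) ≤ M ∧ M ≤ H ∧
              -- with a very short period
              (∀ a u, IsSeq c a u → ∀ n, (M : ℤ) ∣ u (n + m) - u n) ∧
              -- which is a certificate for almost all initial values in every cube
              ∀ (b : Fin d → ℤ) (T : ℕ), 1 ≤ T → ∃ E ⊆ box b H,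
                (E.card : ℝ) ≤ T * (H : ℝ) ^ ((d : ℝ) - 1 + ε) ∧
                ∀ a ∈ box b H \ E, (A (code c, code a)).Dom ∧
                  ∀ u, IsSeq c a u → ∀ n, ∀ t : ℤ, |t| ≤ T → ¬ (M : ℤ) ∣ u n - t) ∧
      -- the exponent is exact
      ∀ (d : ℕ) (hd : 1 ≤ d) (c : Fin d → ℤ), c ⟨d - 1, by omega⟩ ≠ 0 →
        Squarefree ((charPoly c).map (Int.castRingHom ℚ)) →
        (∀ H : ℕ, (2 * H + 1) ^ (d - 1) ≤ (zeros c H).card) ∧
        Filter.Tendsto (fun H : ℕ => Real.log ((zeros c H).card : ℝ) / Real.log H) Filter.atTop
          (nhds ((d : ℝ) - 1)) := by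
  obtain ⟨A, hA, h1, h2⟩ := Pool.Agent.R544.OM.main
  refine ⟨A, hA, h1, ?_, ?_⟩
  · intro L _ _ d hd C ε hε
    obtain ⟨H₀, hH₀⟩ := h2 L d hd C ε hε
    refine ⟨H₀, fun H hH => ?_⟩
    obtain ⟨-, m, hm⟩ := hH₀ H hH
    exact ⟨m, hm⟩
  · intro d hd c hc hsq
    exact ⟨fun H => Pool.Agent.R544.OM.lower hd c H, Pool.Agent.R544.OM.limit d hd c hc hsq⟩

end Pool.Agent.Results.MP_8d13b5_lc.OneModulus
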