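import Pool.Agent.R851.SK.MainC

set_option autoImplicit false

/-!
# The Skolem Problem for random Markov chains: smoothed analysis of Markov reachability

Consider the Markov chains with `m = d + 1` states whose transition probabilities have the common
denominator `N`. Such a chain is given by the `m (m - 1)` numerators `a i j` of the first `m - 1`
columns of the transition matrix `P`; the last column is determined by the condition that the row
sums are `1`. Whether the distribution `π_n = π_0 P^n` ever satisfies a linear equation, for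
instance whether the probability of a state at time `n` is ever equal to a given threshold, is the
Markov reachability problem, which is equivalent to the Skolem Problem.

We perturb an arbitrary chain: the numerators run through a cube of side `2 H + 1` with any centre,
and `N` is any nonzero integer with `|N| ≤ H^B`, so that the perturbation may be very small in
comparison with the probabilities. For all but a proportion `H ^ (-δ)` of the chains: for ALL
initial distributions `π_0 = x / ∑ x_i` with `|x_i| ≤ H ^ δ` and ALL polynomials `g`, of degree at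
most `r` in each of the `m` variables and with integer coefficients at most `H ^ δ`, if
`g(π_0) ≠ 0`, then `g(π_n) ≠ 0` for all times `n`. So neither a small threshold, nor any other small
polynomial relation between the probabilities of the states, is ever reached, unless it holds at
the beginning. There is a prime `p ≤ (log H) ^ A` which divides no term of the integer linear
recurrence sequence `q_n = (N^n ∑ x_i)^(m r) g(π_n)`, which has period `p - 1` modulo `p`, and the
algorithm recognises it. (The chains need not be stochastic: the entries of `P` may be negative.)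

Proof idea. On the hyperplane of the vectors with the sum of coordinates `1` the chain acts as an
affine map of a space of dimension `d`, whose matrix and translation part, multiplied by `N`, are in
bijection with the numerators, modulo every prime which does not divide `N`. Let `k = 2 (m r + 1)`
and let `p ≡ 1` modulo `k` be a prime which divides neither `N` nor `∑ x_i` nor `q_0`. As in
`RandomAffineLoops` the affine maps `M = G D G⁻¹` with the fixed point `u - G 1`, where `u` is the
starting point, where the entries of `D` are distinct `k`-th powers different from `1`, give a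
positive proportion of good maps modulo `p`, and this does not depend on `N`. The sieve, without
the at most `C log H` excluded primes, and a union bound over the pairs `(g, x)` give the result.
-/

namespace Pool.Agent.Results.MP_8d13b5_lc.RandomMarkovChains

open Pool.Agent.H684R3.Smo Pool.Agent.H884R2.Sko Pool.Agent.H692R2.USS

/-- The integer matrix whose first `d` columns are `a` and whose row sums are all equal to `N`. -/
def numerators {d : ℕ} (a : Fin (d + 1) × Fin d → ℤ) (N : ℤ) :
    Matrix (Fin (d + 1)) (Fin (d + 1)) ℤ :=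
  fun i => Fin.snoc (α := fun _ => ℤ) (fun j => a (i, j)) (N - ∑ j, a (i, j))

/-- The transition matrix with the numerators `a` and the common denominator `N`. -/
def transition {d : ℕ} (a : Fin (d + 1) × Fin d → ℤ) (N : ℤ) :
    Matrix (Fin (d + 1)) (Fin (d + 1)) ℚ :=
  fun i j => (numerators a N i j : ℚ) / N

/-- The distribution at time `n`, if the initial distribution is `x / ∑ x_i`. -/
def distribution {d : ℕ} (a : Fin (d + 1) × Fin d → ℤ) (N : ℤ) (x : Fin (d + 1) → ℤ) (n : ℕ) :
    Fin (d + 1) → ℚ :=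
  Matrix.vecMul (fun i => (x i : ℚ) / ∑ j, (x j : ℚ)) (transition a N ^ n)

/-- The value at `y` of the polynomial with the coefficients `w`, of degree at most `r` in each
variable: `∑ w_e y^e`. -/
def value {m r : ℕ} (w : (Fin m → Fin (r + 1)) → ℤ) (y : Fin m → ℚ) : ℚ :=
  ∑ e, (w e : ℚ) * ∏ i, y i ^ (e i : ℕ)

/-- For every polynomial `g` of degree at most `r` in each variable, with integer coefficients of
absolute value at most `X`, and every initial distribution `π_0 = x / ∑ x_i` with `|x_i| ≤ X`,
with `g(π_0) ≠ 0`: one has `g(π_n) ≠ 0` for all `n`; the numbers `q_n = (N^n ∑ x_i)^((d+1) r) g(π_n)`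
are integers, some prime `p ≤ Y` divides no `q_n`, and `q` has period `p - 1` modulo `p`; and `f`
returns `true` on every input which codes `q` as a linear recurrence sequence. -/
def Easy (f : ℕ × (List (ℕ × ℕ) × List (ℕ × ℕ)) → Bool) (d r : ℕ) (X Y : ℝ) (N : ℤ)
    (a : Fin (d + 1) × Fin d → ℤ) : Prop :=
  ∀ (w : (Fin (d + 1) → Fin (r + 1)) → ℤ) (x : Fin (d + 1) → ℤ), (∀ e, |(w e : ℝ)| ≤ X) →
    (∀ i, |(x i : ℝ)| ≤ X) → ∑ i, x i ≠ 0 → value w (distribution a N x 0) ≠ 0 →
      (∀ n, value w (distribution a N x n) ≠ 0) ∧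
      ∃ q : ℕ → ℤ,
        (∀ n, (q n : ℚ) = (N ^ n * ∑ i, (x i : ℚ)) ^ ((d + 1) * r) *
          value w (distribution a N x n)) ∧
        (∃ p : ℕ, p.Prime ∧ (p : ℝ) ≤ Y ∧
          ∀ n, ¬ (p : ℤ) ∣ q n ∧ (p : ℤ) ∣ q (n + (p - 1)) - q n) ∧
        ∀ z, IsLRS z q → f (⌊Y⌋₊, z) = true

open Pool.Agent.R851.SK in
theorem sum_vecMul_pow {d : ℕ} (a : Fin (d + 1) × Fin d → ℤ) (N : ℤ) (x : Fin (d + 1) → ℤ)
    (n : ℕ) : ∑ i, Matrix.vecMul x (tm (dat a N) ^ n) i = N ^ n * ∑ i, x i := by
  induction n with
  | zero => rw [pow_zero, Matrix.vecMul_one, pow_zero, one_mul]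
  | succ n ih =>
    rw [pow_succ, ← Matrix.vecMul_vecMul]
    set y := Matrix.vecMul x (tm (dat a N) ^ n) with hy
    have h1 : ∀ i, ∑ j, tm (dat a N) i j = N := by
      intro i
      rw [Fin.sum_univ_castSucc]
      simp only [tm_castSucc, tm_last]
      simp [dat]
    calc ∑ j, Matrix.vecMul y (tm (dat a N)) j = ∑ j, ∑ i, y i * tm (dat a N) i j := by
          simp [Matrix.vecMul, dotProduct]
      _ = ∑ i, y i * ∑ j, tm (dat a N) i j := by
          rw [Finset.sum_comm]
          refine Finset.sum_congr rfl fun i _ => ?_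
          rw [Finset.mul_sum]
      _ = N ^ (n + 1) * ∑ i, x i := by
          simp only [h1]
          rw [← Finset.sum_mul, ih]
          ring

open Pool.Agent.R851.SK in
theorem distribution_eq {d : ℕ} (a : Fin (d + 1) × Fin d → ℤ) (N : ℤ) (hN : N ≠ 0)
    (x : Fin (d + 1) → ℤ) (hx : ∑ i, x i ≠ 0) (n : ℕ) (i : Fin (d + 1)) :
    ((Matrix.vecMul x (tm (dat a N) ^ n) i : ℤ) : ℚ) =
      (N ^ n * ∑ i, (x i : ℚ)) * distribution a N x n i := by
  have hN' : (N : ℚ) ≠ 0 := by exact_mod_cast hN
  have hσ : (∑ i, (x i : ℚ)) ≠ 0 := by exact_mod_cast hx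
  have h0 : transition a N = (N : ℚ)⁻¹ • (tm (dat a N)).map (Int.castRingHom ℚ) := by
    ext i j
    rw [Matrix.smul_apply, Matrix.map_apply, smul_eq_mul, inv_mul_eq_div]
    rfl
  have h1 : distribution a N x n = ((N : ℚ) ^ n * ∑ i, (x i : ℚ))⁻¹ •
      Matrix.vecMul (fun i => (x i : ℚ)) ((tm (dat a N) ^ n).map (Int.castRingHom ℚ)) := by
    unfold distribution
    rw [h0, smul_pow, Matrix.vecMul_smul, Matrix.map_pow]
    have h2 : (fun i => (x i : ℚ) / ∑ j, (x j : ℚ)) =
        (∑ j, (x j : ℚ))⁻¹ • fun i => (x i : ℚ) := by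
      funext i
      rw [Pi.smul_apply, smul_eq_mul, inv_mul_eq_div]
    rw [h2, Matrix.smul_vecMul, smul_smul, mul_inv, inv_pow]
  rw [h1, Pi.smul_apply, smul_eq_mul, ← mul_assoc, mul_inv_cancel₀ (mul_ne_zero (pow_ne_zero _ hN')
    hσ), one_mul]
  simp [Matrix.vecMul, dotProduct]

open Pool.Agent.R851.SK in
theorem hval_eq {d r : ℕ} (w : (Fin (d + 1) → Fin (r + 1)) → ℤ) (a : Fin (d + 1) × Fin d → ℤ)
    (N : ℤ) (hN : N ≠ 0) (x : Fin (d + 1) → ℤ) (hx : ∑ i, x i ≠ 0) (n : ℕ) :
    ((hval w (Matrix.vecMul x (tm (dat a N) ^ n)) : ℤ) : ℚ) =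
      (N ^ n * ∑ i, (x i : ℚ)) ^ ((d + 1) * r) * value w (distribution a N x n) := by
  have hd := distribution_eq a N hN x hx n
  unfold hval value
  rw [sum_vecMul_pow]
  push_cast
  set c : ℚ := (N : ℚ) ^ n * ∑ i, (x i : ℚ) with hc
  rw [Finset.mul_sum]
  refine Finset.sum_congr rfl fun e _ => ?_
  have h1 : ∏ i, ((Matrix.vecMul x (tm (dat a N) ^ n) i : ℤ) : ℚ) ^ (e i : ℕ) =
      c ^ (∑ i, (e i : ℕ)) * ∏ i, distribution a N x n i ^ (e i : ℕ) := by
    simp only [hd, mul_pow c]
    rw [Finset.prod_mul_distrib, Finset.prod_pow_eq_pow_sum]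
  rw [h1]
  have h3 : c ^ ((d + 1) * r) =
      c ^ (∑ i, (e i : ℕ)) * c ^ ((d + 1) * r - ∑ i, (e i : ℕ)) := by
    rw [← pow_add, Nat.add_sub_cancel' (sum_le e)]
  rw [h3]
  ring

open Pool.Agent.R851.SK in
theorem result :
    -- one total computable function, which reads all linear recurrence sequences and never errs
    ∃ f : ℕ × (List (ℕ × ℕ) × List (ℕ × ℕ)) → Bool, Computable f ∧
      (∀ (y : ℕ) (z : List (ℕ × ℕ) × List (ℕ × ℕ)) (v : ℕ → ℤ), IsLRS z v → f (y, z) = true →
        ∀ n, v n ≠ 0) ∧
      -- all numbers of states, all degrees, all common denominators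
      ∀ d r B : ℕ, ∃ A δ : ℝ, 0 < A ∧ 0 < δ ∧ ∃ H₀ : ℕ, ∀ H : ℕ, H₀ ≤ H →
        ∀ N : ℤ, N ≠ 0 → |(N : ℝ)| ≤ (H : ℝ) ^ B → ∀ c : Fin (d + 1) × Fin d → ℤ,
          (Nat.card {a : Fin (d + 1) × Fin d → ℤ // (∀ q, |a q - c q| ≤ (H : ℤ)) ∧
            ¬ Easy f d r ((H : ℝ) ^ δ) (Real.log H ^ A) N a} : ℝ) ≤
            (H : ℝ) ^ (-δ) * (2 * H + 1 : ℝ) ^ ((d + 1) * d) := by
  obtain ⟨f, hf, hfe⟩ := t10
  refine ⟨f, hf, fun y z v hv ht n hn => ?_, fun d r B => ?_⟩
  · obtain ⟨q, _, _, hq⟩ := (hfe y z v hv).1 ht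
    apply hq n
    rw [hn]
    exact dvd_zero _
  · obtain ⟨A, δ, hA, hδ, H₀, h⟩ := mainC d r B
    refine ⟨A, δ, hA, hδ, H₀, fun H hH N hN hNH c => ?_⟩
    have h1 := h H hH N hN hNH c
    have hcard : Fintype.card (Fin (d + 1) × Fin d) = (d + 1) * d := by simp
    rw [mul_comm, ← hcard]
    refine le_trans ?_ h1
    have hmem : ∀ x : Fin (d + 1) × Fin d → ℤ, (∀ i, |x i - c i| ≤ (H : ℤ)) →
        x ∈ bx c H := by
      intro x hx
      unfold bx
      rw [Fintype.mem_piFinset]
      intro i
      rw [Finset.mem_Icc]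
      have := abs_le.1 (hx i)
      constructor <;> linarith [this.1, this.2]
    have heasy : ∀ a : Fin (d + 1) × Fin d → ℤ,
        EasyC d r ((H : ℝ) ^ δ) (Real.log H ^ A) N a →
        Easy f d r ((H : ℝ) ^ δ) (Real.log H ^ A) N a := by
      intro a ha w x hw hx hσ hwx
      have hσ' : (∑ i, (x i : ℚ)) ≠ 0 := by exact_mod_cast hσ
      have hN' : (N : ℚ) ≠ 0 := by exact_mod_cast hN
      have h0 : hval w x ≠ 0 := by
        intro h0
        apply hwx
        have h2 := hval_eq w a N hN x hσ 0
        rw [pow_zero, Matrix.vecMul_one, h0, Int.cast_zero, pow_zero, one_mul] at h2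
        exact (mul_eq_zero.1 h2.symm).resolve_left (pow_ne_zero _ hσ')
      obtain ⟨p, hp, hpY, hpv⟩ := ha w x hw hx hσ h0
      refine ⟨fun n hn => ?_, fun n => hval w (Matrix.vecMul x (tm (dat a N) ^ n)),
        fun n => hval_eq w a N hN x hσ n, ⟨p, hp, hpY, fun n => ⟨(hpv n).1, ?_⟩⟩,
        fun z hz => ?_⟩
      · apply (hpv n).1
        have h2 := hval_eq w a N hN x hσ n
        rw [hn, mul_zero] at h2
        have h3 : hval w (Matrix.vecMul x (tm (dat a N) ^ n)) = 0 := by exact_mod_cast h2
        rw [h3]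
        exact dvd_zero _
      · rw [← ZMod.intCast_zmod_eq_zero_iff_dvd, Int.cast_sub, hval_cast, hval_cast, sub_eq_zero]
        congr 1
        funext i
        have h2 := (hpv n).2 i
        rw [← ZMod.intCast_zmod_eq_zero_iff_dvd, Int.cast_sub, sub_eq_zero] at h2
        exact h2
      · rw [hfe _ _ _ hz]
        exact ⟨p, Nat.le_floor hpY, hp, fun n => (hpv n).1⟩
    have hfin := finite_sub c H
      (fun v => ¬ EasyC d r ((H : ℝ) ^ δ) (Real.log H ^ A) N v)
    have hle := Nat.card_le_card_of_injective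
      (fun x : {a : Fin (d + 1) × Fin d → ℤ // (∀ q, |a q - c q| ≤ (H : ℤ)) ∧
          ¬ Easy f d r ((H : ℝ) ^ δ) (Real.log H ^ A) N a} =>
        (⟨x.1, hmem x.1 x.2.1, fun h => x.2.2 (heasy x.1 h)⟩ :
          {a : Fin (d + 1) × Fin d → ℤ // a ∈ bx c H ∧
            ¬ EasyC d r ((H : ℝ) ^ δ) (Real.log H ^ A) N a}))
      (fun x y hxy => Subtype.ext (congrArg (fun z => z.1) hxy))
    exact_mod_cast hle

end Pool.Agent.Results.MP_8d13b5_lc.RandomMarkovChains
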